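import Pool.Agent.W26.HN.D

set_option autoImplicit false

/-! Densities of the basins and the law of the entrance times for the Syracuse map on the negative
odd integers. -/

namespace Pool.Agent.Results.MP_005f52_nt.EntranceLaw

open Filter Topology

/-- The Syracuse map. -/
def Syr (N : ℤ) : ℤ := (3 * N + 1) / 2 ^ padicValInt 2 (3 * N + 1)

/-- `Z` is the set of the terms of a periodic orbit of negative odd integers. -/
def IsCycle (Z : Finset ℤ) : Prop :=
  ∃ (a : ℤ) (p : ℕ), a < 0 ∧ Odd a ∧ 1 ≤ p ∧ Syr^[p] a = a ∧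
    Z = (Finset.range p).image fun i => Syr^[i] a

/-- The orbit of `N` enters `Z` after exactly `k` steps. -/
def Enters (Z : Finset ℤ) (k : ℕ) (N : ℤ) : Prop := Syr^[k] N ∈ Z ∧ ∀ i < k, Syr^[i] N ∉ Z

/-- Among the negative odd integers, those with the property `P` have natural density `δ`:
`2 / X` times the number of negative odd `N ≥ -X` with `P N` tends to `δ`. -/
def HasDensity (P : ℤ → Prop) (δ : ℝ) : Prop :=
  Tendsto (fun X : ℕ => 2 / (X : ℝ) * ({N : ℤ | -(X : ℤ) ≤ N ∧ N < 0 ∧ Odd N ∧ P N}.ncard : ℝ))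
    atTop (𝓝 δ)

/-- `log |N| / log (4/3) + x * log 2 * √(2 log |N| / (log (4/3))^3)` -/
noncomputable def bound (x : ℝ) (N : ℤ) : ℝ :=
  1 / Real.log (4 / 3) * Real.log |(N : ℝ)|
    + x * (Real.log 2 * Real.sqrt (2 * Real.log |(N : ℝ)| / Real.log (4 / 3) ^ 3))

/-- The distribution function of the standard normal law. -/
noncomputable def Phi (x : ℝ) : ℝ :=
  ProbabilityTheory.cdf (ProbabilityTheory.gaussianReal 0 1) x

/-- the three known cycles -/
def C₁ : Finset ℤ := {-1}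

/-- the three known cycles -/
def C₂ : Finset ℤ := {-5, -7}

/-- the three known cycles -/
def C₃ : Finset ℤ := {-17, -25, -37, -55, -41, -61, -91}

open Pool.Agent.W26.HN Pool.Agent.H499R2.ND in
theorem density_of {P : ℤ → Prop} {δ : ℝ} (h : Dn (fun n : ℕ => n % 2 = 1 ∧ P (-(n : ℤ))) (δ / 2)) :
    HasDensity P δ := by
  unfold HasDensity
  have h1 := h.const_mul 2
  rw [mul_div_cancel₀ δ (by norm_num : (2 : ℝ) ≠ 0)] at h1
  refine h1.congr fun X => ?_
  have e : {N : ℤ | -(X : ℤ) ≤ N ∧ N < 0 ∧ Odd N ∧ P N}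
      = (fun n : ℕ => -(n : ℤ)) '' {n : ℕ | 1 ≤ n ∧ n ≤ X ∧ n % 2 = 1 ∧ P (-(n : ℤ))} := by
    ext N
    constructor
    · rintro ⟨g1, g2, g3, g4⟩
      have g3' := Int.odd_iff.1 g3
      refine ⟨N.natAbs, ⟨by omega, by omega, by omega, ?_⟩, ?_⟩
      · have : -((N.natAbs : ℕ) : ℤ) = N := by omega
        rw [this]; exact g4
      · show -((N.natAbs : ℕ) : ℤ) = N
        omega
    · rintro ⟨n, ⟨g1, g2, g3, g4⟩, rfl⟩
      refine ⟨?_, ?_, ?_, g4⟩
      · show -(X : ℤ) ≤ -(n : ℤ)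
        omega
      · show -(n : ℤ) < 0
        omega
      · rw [Int.odd_iff]
        show -(n : ℤ) % 2 = 1
        omega
  rw [e, Set.ncard_image_of_injective _ (fun a b hab => by
    have : -(a : ℤ) = -(b : ℤ) := hab
    omega)]
  unfold cnt
  ring

theorem bound_eq (x : ℝ) (n : ℕ) : bound x (-(n : ℤ)) = Pool.Agent.H499R2.HL.bo x (Real.log n) := by
  unfold bound Pool.Agent.H499R2.HL.bo
  have : |((-(n : ℤ) : ℤ) : ℝ)| = n := by
    push_cast
    rw [abs_neg, abs_of_nonneg (Nat.cast_nonneg n)]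
  rw [this]

theorem syr_eq {N M : ℤ} (v : ℕ) (h : 3 * N + 1 = 2 ^ v * M) (hM : M % 2 = 1) : Syr N = M :=
  Pool.Agent.W26.HN.Sy_eq h hM

theorem s1 : Syr (-1) = -1 := syr_eq 1 (by norm_num) (by norm_num)
theorem s5 : Syr (-5) = -7 := syr_eq 1 (by norm_num) (by norm_num)
theorem s7 : Syr (-7) = -5 := syr_eq 2 (by norm_num) (by norm_num)
theorem s17 : Syr (-17) = -25 := syr_eq 1 (by norm_num) (by norm_num)
theorem s25 : Syr (-25) = -37 := syr_eq 1 (by norm_num) (by norm_num)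
theorem s37 : Syr (-37) = -55 := syr_eq 1 (by norm_num) (by norm_num)
theorem s55 : Syr (-55) = -41 := syr_eq 2 (by norm_num) (by norm_num)
theorem s41 : Syr (-41) = -61 := syr_eq 1 (by norm_num) (by norm_num)
theorem s61 : Syr (-61) = -91 := syr_eq 1 (by norm_num) (by norm_num)
theorem s91 : Syr (-91) = -17 := syr_eq 4 (by norm_num) (by norm_num)

theorem cycle₁ : IsCycle C₁ := by
  refine ⟨-1, 1, by norm_num, by decide, le_rfl, by rw [Function.iterate_one, s1], ?_⟩
  rw [show Finset.range 1 = {0} from rfl, Finset.image_singleton]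
  rfl

theorem cycle₂ : IsCycle C₂ := by
  have h1 : Syr^[1] (-5) = -7 := by rw [Function.iterate_one, s5]
  have h2 : Syr^[2] (-5) = -5 := by rw [Function.iterate_succ_apply', h1, s7]
  refine ⟨-5, 2, by norm_num, by decide, by norm_num, h2, ?_⟩
  rw [show Finset.range 2 = {0, 1} from rfl, Finset.image_insert, Finset.image_singleton, h1]
  rfl

theorem cycle₃ : IsCycle C₃ := by
  have h1 : Syr^[1] (-17) = -25 := by rw [Function.iterate_one, s17]
  have h2 : Syr^[2] (-17) = -37 := by rw [Function.iterate_succ_apply', h1, s25]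
  have h3 : Syr^[3] (-17) = -55 := by rw [Function.iterate_succ_apply', h2, s37]
  have h4 : Syr^[4] (-17) = -41 := by rw [Function.iterate_succ_apply', h3, s55]
  have h5 : Syr^[5] (-17) = -61 := by rw [Function.iterate_succ_apply', h4, s41]
  have h6 : Syr^[6] (-17) = -91 := by rw [Function.iterate_succ_apply', h5, s61]
  have h7 : Syr^[7] (-17) = -17 := by rw [Function.iterate_succ_apply', h6, s91]
  refine ⟨-17, 7, by norm_num, by decide, by norm_num, h7, ?_⟩
  rw [show Finset.range 7 = {0, 1, 2, 3, 4, 5, 6} from rfl]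
  simp only [Finset.image_insert, Finset.image_singleton, h1, h2, h3, h4, h5, h6]
  rfl

/-- (1) Every set `S` of negative odd integers which contains `N` iff it contains `Syr N` has a
natural density; it is `0` only if `S` is empty and `1` only if `S` is everything.
(2) Every cycle `Z` (known or not) has a basin of positive density `δ Z`; the entrance times into `Z`
are equidistributed modulo every `q`, and in each class they have a normal limit law.
(3) The three known cycles: the densities add up to the density of the set of the `N` for which the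
assertion of Q1 holds, and their sum is `1` iff Q1 is true.
(4) The densities of the basins of all cycles have a finite sum `D`, the unbounded orbits have
density `1 - D`, and `D = 1` iff there is no unbounded orbit. -/
theorem result :
    (∀ S : Set ℤ, (∀ N, N < 0 → Odd N → (N ∈ S ↔ Syr N ∈ S)) →
      ∃ d : ℝ, HasDensity (fun N => N ∈ S) d ∧ (d = 0 ↔ ∀ N, N < 0 → Odd N → N ∉ S) ∧
        (d = 1 ↔ ∀ N, N < 0 → Odd N → N ∈ S)) ∧
    ∃ δ : Finset ℤ → ℝ,
      (∀ Z : Finset ℤ, IsCycle Z →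
        0 < δ Z ∧ HasDensity (fun N => ∃ k : ℕ, Syr^[k] N ∈ Z) (δ Z) ∧
        ∀ (q : ℕ) (b : ℤ), 1 ≤ q →
          HasDensity (fun N => ∃ k : ℕ, Enters Z k N ∧ (k : ℤ) ≡ b [ZMOD q]) (δ Z / q) ∧
          ∀ x : ℝ, HasDensity (fun N => ∃ k : ℕ, Enters Z k N ∧ (k : ℝ) ≤ bound x N ∧
            (k : ℤ) ≡ b [ZMOD q]) (δ Z * Phi x / q)) ∧
      (IsCycle C₁ ∧ IsCycle C₂ ∧ IsCycle C₃ ∧
        HasDensity (fun N => ∃ k : ℕ, Syr^[k] N ∈ C₁ ∪ C₂ ∪ C₃) (δ C₁ + δ C₂ + δ C₃) ∧
        (δ C₁ + δ C₂ + δ C₃ = 1 ↔ ∀ N, N < 0 → Odd N → ∃ k : ℕ, Syr^[k] N ∈ C₁ ∪ C₂ ∪ C₃)) ∧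
      ∃ D : ℝ, HasSum (fun Z : {Z : Finset ℤ // IsCycle Z} => δ Z) D ∧
        HasDensity (fun N => ∀ M : ℤ, ∃ k : ℕ, M < |Syr^[k] N|) (1 - D) ∧
        (D = 1 ↔ ∀ N, N < 0 → Odd N → ∃ M : ℤ, ∀ k : ℕ, |Syr^[k] N| ≤ M) := by
  have hconv : ∀ S : Set ℤ, (∀ N, N < 0 → Odd N → (N ∈ S ↔ Syr N ∈ S)) →
      ∀ N : ℤ, N < 0 → N % 2 = 1 → (N ∈ S ↔ Pool.Agent.W26.HN.Sy N ∈ S) :=
    fun S hS N hN hodd => hS N hN (Int.odd_iff.2 hodd)
  refine ⟨fun S hS => ?_, ?_⟩
  · obtain ⟨d, _, _, _, hd, h0, h1⟩ := Pool.Agent.W26.HN.inv_density (hconv S hS)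
    refine ⟨d, density_of hd, ?_, ?_⟩
    · rw [h0]
      exact forall_congr' fun N => forall_congr' fun _ => by rw [Int.odd_iff]
    · rw [h1]
      exact forall_congr' fun N => forall_congr' fun _ => by rw [Int.odd_iff]
  · obtain ⟨δ, hδ⟩ := Pool.Agent.W26.HN.law_cyc
    refine ⟨δ, fun Z hZ => ?_, ?_, ?_⟩
    · obtain ⟨h0, h1, h2⟩ := hδ Z hZ
      refine ⟨h0, density_of h1, fun q b hq => ⟨density_of (h2 q b hq).1, fun x => density_of ?_⟩⟩
      have h5 := (h2 q b hq).2 x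
      have e : δ Z / (q : ℝ) * Pool.Agent.H499R2.ND.Phi x / 2 = δ Z * Phi x / q / 2 := by
        unfold Phi
        rw [← Pool.Agent.H499R2.ND.phi_cdf]
        ring
      rw [e] at h5
      refine Pool.Agent.H499R2.LT.Dn_iff (fun n _ => and_congr_right fun _ => exists_congr fun k => ?_) h5
      rw [bound_eq]
      exact Iff.rfl
    · have hC : ∀ y ∈ C₁ ∪ C₂ ∪ C₃, Syr y ∈ C₁ ∪ C₂ ∪ C₃ := by
        intro y hy
        have h1 : ∀ {Z : Finset ℤ}, IsCycle Z → y ∈ Z → Syr y ∈ Z :=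
          fun hZ hyZ => Pool.Agent.W26.HN.cyc_step hZ y hyZ
        rw [Finset.mem_union, Finset.mem_union] at hy ⊢
        rcases hy with (hy | hy) | hy
        · exact Or.inl (Or.inl (h1 cycle₁ hy))
        · exact Or.inl (Or.inr (h1 cycle₂ hy))
        · exact Or.inr (h1 cycle₃ hy)
      obtain ⟨d, _, _, _, hd, _, h1⟩ := Pool.Agent.W26.HN.inv_density
        (S := Pool.Agent.W26.HN.Ba (C₁ ∪ C₂ ∪ C₃)) (fun N _ _ => Pool.Agent.W26.HN.Ba_inv hC N)
      have h12 : C₁ ≠ C₂ := by decide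
      have h13 : C₁ ≠ C₃ := by decide
      have h23 : C₂ ≠ C₃ := by decide
      have hcy : ∀ Z ∈ ({C₁, C₂, C₃} : Finset (Finset ℤ)), IsCycle Z := by
        intro Z hZ
        rw [Finset.mem_insert, Finset.mem_insert, Finset.mem_singleton] at hZ
        rcases hZ with rfl | rfl | rfl
        · exact cycle₁
        · exact cycle₂
        · exact cycle₃
      have h2 := Pool.Agent.H499R2.LT.Dn_sum ({C₁, C₂, C₃} : Finset (Finset ℤ))
        (fun Z n => n % 2 = 1 ∧ -(n : ℤ) ∈ Pool.Agent.W26.HN.Ba Z) (fun Z => δ Z / 2)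
        (fun Z hZ => (hδ Z (hcy Z hZ)).2.1) (by
          rintro n Z hZ Z' hZ' ⟨_, k, hk⟩ ⟨_, k', hk'⟩
          exact Pool.Agent.W26.HN.cyc_eq (hcy Z hZ) (hcy Z' hZ') hk hk')
      have h3 : Pool.Agent.H499R2.ND.Dn (fun n : ℕ => n % 2 = 1 ∧
          -(n : ℤ) ∈ Pool.Agent.W26.HN.Ba (C₁ ∪ C₂ ∪ C₃)) ((δ C₁ + δ C₂ + δ C₃) / 2) := by
        rw [Finset.sum_insert (by
          rw [Finset.mem_insert, Finset.mem_singleton]
          rintro (h | h)
          · exact h12 h
          · exact h13 h), Finset.sum_insert (by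
          rw [Finset.mem_singleton]; exact h23), Finset.sum_singleton] at h2
        have e : δ C₁ / 2 + (δ C₂ / 2 + δ C₃ / 2) = (δ C₁ + δ C₂ + δ C₃) / 2 := by ring
        rw [e] at h2
        refine Pool.Agent.H499R2.LT.Dn_iff (fun n _ => ?_) h2
        constructor
        · rintro ⟨Z, hZ, h4, k, hk⟩
          refine ⟨h4, k, ?_⟩
          rw [Finset.mem_union, Finset.mem_union]
          rw [Finset.mem_insert, Finset.mem_insert, Finset.mem_singleton] at hZ
          rcases hZ with rfl | rfl | rfl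
          · exact Or.inl (Or.inl hk)
          · exact Or.inl (Or.inr hk)
          · exact Or.inr hk
        · rintro ⟨h4, k, hk⟩
          rw [Finset.mem_union, Finset.mem_union] at hk
          rcases hk with (hk | hk) | hk
          · exact ⟨C₁, by simp, h4, k, hk⟩
          · exact ⟨C₂, by simp, h4, k, hk⟩
          · exact ⟨C₃, by simp, h4, k, hk⟩
      have h4 : d = δ C₁ + δ C₂ + δ C₃ := by
        have := tendsto_nhds_unique hd h3
        linarith
      refine ⟨cycle₁, cycle₂, cycle₃, density_of h3, ?_⟩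
      rw [← h4, h1]
      exact forall_congr' fun N => forall_congr' fun _ => by rw [Int.odd_iff]; exact Iff.rfl
    · obtain ⟨D, hsum, hD, hD1⟩ := Pool.Agent.W26.HN.sum_cyc δ (fun Z hZ => (hδ Z hZ).2.1)
      have hub : ∀ N : ℤ, (∀ M : ℤ, ∃ k : ℕ, M < |Syr^[k] N|) ↔ N ∉ Pool.Agent.W26.HN.EP :=
        fun N => Pool.Agent.H499R2.ND.unbounded_iff Syr N
      refine ⟨D, hsum, density_of ?_, ?_⟩
      · have h1 := Pool.Agent.H499R2.ND.odd_density.sub hD
        rw [show (1 : ℝ) / 2 - D / 2 = (1 - D) / 2 by ring] at h1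
        refine h1.congr fun X => ?_
        rw [← sub_div]
        congr 1
        have hf : ∀ R : ℕ → Prop, {n : ℕ | 1 ≤ n ∧ n ≤ X ∧ R n}.Finite := fun R =>
          (Set.finite_Icc 1 X).subset fun n hn => ⟨hn.1, hn.2.1⟩
        have e : {n : ℕ | 1 ≤ n ∧ n ≤ X ∧ n % 2 = 1}
            = {n : ℕ | 1 ≤ n ∧ n ≤ X ∧ (n % 2 = 1 ∧ -(n : ℤ) ∈ Pool.Agent.W26.HN.EP)}
            ∪ {n : ℕ | 1 ≤ n ∧ n ≤ X ∧ (n % 2 = 1 ∧ ∀ M : ℤ, ∃ k : ℕ, M < |Syr^[k] (-(n : ℤ))|)} := by
          ext n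
          constructor
          · rintro ⟨g1, g2, g3⟩
            by_cases g4 : -(n : ℤ) ∈ Pool.Agent.W26.HN.EP
            · exact Or.inl ⟨g1, g2, g3, g4⟩
            · exact Or.inr ⟨g1, g2, g3, (hub _).2 g4⟩
          · rintro (⟨g1, g2, g3, _⟩ | ⟨g1, g2, g3, _⟩) <;> exact ⟨g1, g2, g3⟩
        unfold Pool.Agent.H499R2.ND.cnt
        rw [e, Set.ncard_union_eq _ (hf _) (hf _)]
        · push_cast; ring
        · rw [Set.disjoint_left]
          rintro n ⟨_, _, _, g⟩ ⟨_, _, _, g'⟩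
          exact (hub _).1 g' g
      · rw [hD1]
        refine forall_congr' fun N => forall_congr' fun _ => ?_
        rw [Int.odd_iff]
        refine forall_congr' fun _ => ?_
        have h1 := hub N
        constructor
        · intro h
          by_contra hcon
          push Not at hcon
          exact (h1.1 hcon) h
        · rintro ⟨M, hM⟩
          by_contra hcon
          obtain ⟨k, hk⟩ := h1.2 hcon M
          exact absurd (hM k) (not_le.2 hk)

end Pool.Agent.Results.MP_005f52_nt.EntranceLaw
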