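import Mathlib
import Pool.Agent.W42.Syr

set_option autoImplicit false

/-!
Negative odd integers whose parity sequence has low subword complexity reach a known cycle.
-/

namespace Pool.Agent.Results.MP_005f52_nt.FewParityWords

/-- The Syracuse map. -/
def Syr (N : ℤ) : ℤ := (3 * N + 1) / 2 ^ padicValInt 2 (3 * N + 1)

/-- The 3x+1 map on the integers. -/
def T (x : ℤ) : ℤ := if x % 2 = 0 then x / 2 else (3 * x + 1) / 2

/-- the set of the words of length `n` which occur as blocks of consecutive letters in the parity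
sequence of `x`, that is in the sequence `T^i(x) mod 2`, `i = 0, 1, 2, ...` -/
def factors (x : ℤ) (n : ℕ) : Set (Fin n → ℤ) :=
  {w | ∃ i : ℕ, ∀ j : Fin n, w j = T^[i + (j : ℕ)] x % 2}

/-- Let `N` be a negative odd integer such that, for every `n`, at most `5n/2 + 20` words of length
`n` occur in the parity sequence of `N`, and such that, for some `c < log 2 / log (3/2) = 1.7095...`,
at most `c n` words of length `n` occur for infinitely many `n`. Then some Syracuse iterate of `N` is
`-1`, `-5` or `-17`. -/
theorem result (c : ℝ) (hc : c < Real.log 2 / Real.log (3 / 2)) (N : ℤ) (hN : N < 0) (hodd : Odd N)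
    (h1 : ∀ n : ℕ, 2 * (factors N n).ncard ≤ 5 * n + 40)
    (h2 : ∀ n0 : ℕ, ∃ n : ℕ, n0 ≤ n ∧ ((factors N n).ncard : ℝ) ≤ c * n) :
    ∃ k : ℕ, Syr^[k] N ∈ ({-1, -5, -17} : Set ℤ) :=
  Pool.Agent.W42.Syr.main_syr c hc N hN hodd h1 h2

end Pool.Agent.Results.MP_005f52_nt.FewParityWords
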