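import Mathlib
import Pool.Agent.W38.AN

set_option autoImplicit false

/-!
The three basins of the Syracuse map on the negative odd integers: affine neighbours.

Author: helper38.
-/

namespace Pool.Agent.Results.MP_005f52_nt.NeighbourBasins

open Filter Topology

/-- The Syracuse map. -/
def Syr (N : ℤ) : ℤ := (3 * N + 1) / 2 ^ padicValInt 2 (3 * N + 1)

/-- The Syracuse orbit of `N` contains `z`. -/
def Reaches (N z : ℤ) : Prop := ∃ k : ℕ, Syr^[k] N = z

/-- Among the odd positive integers, those with the property `P` have the natural density `δ`. -/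
def HasOddDensity (P : ℕ → Prop) (δ : ℝ) : Prop :=
  Tendsto (fun N : ℕ => 2 / (N : ℝ) * ({n : ℕ | n ≤ N ∧ Odd n ∧ P n}.ncard : ℝ)) atTop (𝓝 δ)

/-- The scale `√ (log n) / (log log n) ^ 16`. -/
noncomputable def κ (n : ℕ) : ℝ := √ (Real.log n) / (Real.log (Real.log n)) ^ 16

/-- The odd integer `m` is a neighbour of `-n`: for some exponents `a, b, a', b' ≤ κ n` one has
`|2^a 3^b m - 2^a' 3^b' (-n)| ≤ exp (κ n)`. -/
def Neighbour (n : ℕ) (m : ℤ) : Prop := Odd m ∧ ∃ a b a' b' : ℕ,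
  (a : ℝ) ≤ κ n ∧ (b : ℝ) ≤ κ n ∧ (a' : ℝ) ≤ κ n ∧ (b' : ℝ) ≤ κ n ∧
    |((2 ^ a * 3 ^ b * m - 2 ^ a' * 3 ^ b' * (-(n : ℤ)) : ℤ) : ℝ)| ≤ Real.exp (κ n)

open Pool.Agent.W38.AN in
theorem reach_Rz {N z : ℤ} (hN : Odd N) (hz : z % 2 = 1) : Reaches N z ↔ N ∈ Rz z :=
  reach_iff (Int.odd_iff.1 hN) hz

theorem nb_iff (n : ℕ) (m : ℤ) : Neighbour n m ↔
    m % 2 = 1 ∧ Pool.Agent.W38.AF.NB n (-1 * (n : ℤ)) m := by
  unfold Neighbour
  rw [Int.odd_iff, show (-1 : ℤ) * n = -(n : ℤ) by ring]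
  refine and_congr_right fun _ => ?_
  constructor
  · rintro ⟨a, b, a', b', h1, h2, h3, h4, h5⟩
    exact ⟨a, a', b, b', h1, h3, h2, h4, h5⟩
  · rintro ⟨a, a', b, b', h1, h3, h2, h4, h5⟩
    exact ⟨a, b, a', b', h1, h2, h3, h4, h5⟩

open Pool.Agent.H499R2.CO in
theorem odd_density_of {P : ℕ → Prop} {δ : ℝ} (h : HD (fun m => m % 2 = 1 ∧ P m) (δ / 2)) :
    HasOddDensity P δ := by
  unfold HasOddDensity
  have h1 := h.const_mul 2
  rw [mul_div_cancel₀ δ (by norm_num : (2 : ℝ) ≠ 0)] at h1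
  refine h1.congr fun N => ?_
  have e : {m : ℕ | 1 ≤ m ∧ m ≤ N ∧ m % 2 = 1 ∧ P m} = {m : ℕ | m ≤ N ∧ Odd m ∧ P m} := by
    ext m
    constructor
    · rintro ⟨g1, g2, g3, g4⟩
      exact ⟨g2, Nat.odd_iff.2 g3, g4⟩
    · rintro ⟨g2, g3, g4⟩
      exact ⟨g3.pos, g2, Nat.odd_iff.1 g3, g4⟩
  rw [e]
  ring

open Pool.Agent.H499R2.CO in
theorem HD_nonneg {P : ℕ → Prop} {l : ℝ} (h : HD P l) : 0 ≤ l :=
  ge_of_tendsto' h fun N => by positivity

/-- (1) For almost all odd `n` the Syracuse orbit of `-n` merges with the Syracuse orbits of all the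
neighbours of `-n`.
(2) There are positive reals `δ(-1), δ(-5), δ(-17)` of sum at most `1` such that for each of these
`z` the odd `n` for which all the neighbours of `-n` reach `z` have density `δ(z)`, and the odd `n`
for which no neighbour of `-n` reaches `z` have density `1 - δ(z)`. The sum is `1` if and only if
every negative odd integer reaches `-1`, `-5` or `-17`. -/
theorem result :
    HasOddDensity (fun n => ∀ m : ℤ, Neighbour n m →
      ∃ i j : ℕ, Syr^[i] m = Syr^[j] (-(n : ℤ))) 1 ∧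
    ∃ δ : ℤ → ℝ, (∀ z : ℤ, z = -1 ∨ z = -5 ∨ z = -17 → 0 < δ z ∧
        HasOddDensity (fun n => ∀ m : ℤ, Neighbour n m → Reaches m z) (δ z) ∧
        HasOddDensity (fun n => ∀ m : ℤ, Neighbour n m → ¬ Reaches m z) (1 - δ z)) ∧
      δ (-1) + δ (-5) + δ (-17) ≤ 1 ∧
      (δ (-1) + δ (-5) + δ (-17) = 1 ↔
        ∀ N : ℤ, N < 0 → Odd N → Reaches N (-1) ∨ Reaches N (-5) ∨ Reaches N (-17)) := by
  have hper : ∀ z : ℤ, z = -1 ∨ z = -5 ∨ z = -17 →
      ∃ p, Pool.Agent.W38.AN.T^[p + 1] z = z := by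
    rintro z (rfl | rfl | rfl)
    · exact ⟨0, by decide⟩
    · exact ⟨2, by decide⟩
    · exact ⟨10, by decide⟩
  have hodd1 : Pool.Agent.H499R2.CO.HD (fun n => n % 2 = 1) (1 / 2) := by
    obtain ⟨δ, _, h2, h3, _⟩ := Pool.Agent.W38.AN.inv_odd (s := -1) (Or.inr rfl)
      (S := Set.univ) (fun x => by simp)
    have hδ : δ = 1 := h2.2 (fun x _ => Set.mem_univ x)
    rw [hδ] at h3
    exact Pool.Agent.W38.AF.HD_congr' h3 (fun n _ => by simp)
  refine ⟨?_, ?_⟩
  · apply odd_density_of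
    refine Pool.Agent.H499R2.CO.HD_congr (Pool.Agent.W38.AF.fwdN (Or.inr rfl)) hodd1
      fun n hn hE => ?_
    refine ⟨fun ho => ⟨ho, fun m hm => ?_⟩, fun h => h.1⟩
    obtain ⟨hmo, a, a', b, b', ha, ha', hb, hb', hm⟩ := (nb_iff n m).1 hm
    obtain ⟨t, _, ht⟩ := hE
    have h1 := ht a a' b b' ha ha' hb hb' m hm
    rw [show (-1 : ℤ) * n = -(n : ℤ) by ring] at h1
    exact Pool.Agent.W38.AN.merge_syr hmo (by omega) h1
  · have hz : ∀ z : ℤ, z = -1 ∨ z = -5 ∨ z = -17 → ∃ δ : ℝ, 0 < δ ∧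
        Pool.Agent.H499R2.CO.HD (fun n => n % 2 = 1 ∧ -1 * (n : ℤ) ∈ Pool.Agent.W38.AN.Rz z) (δ / 2) ∧
        HasOddDensity (fun n => ∀ m : ℤ, Neighbour n m → Reaches m z) δ ∧
        HasOddDensity (fun n => ∀ m : ℤ, Neighbour n m → ¬ Reaches m z) (1 - δ) := by
      intro z hz
      have hzo : z % 2 = 1 := by omega
      obtain ⟨δ, h1, h2, h3, h4, h5⟩ := Pool.Agent.W38.AN.inv_odd (s := -1) (Or.inr rfl)
        (Pool.Agent.W38.AN.Rz_Ci (hper z hz))
      refine ⟨δ, h1.2 ⟨z, ⟨0, rfl⟩, by omega⟩, h3, odd_density_of ?_, odd_density_of ?_⟩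
      · refine Pool.Agent.W38.AF.HD_congr' h4 fun n _ => and_congr_right fun _ => ?_
        constructor
        · intro h m hm
          obtain ⟨g1, g2⟩ := (nb_iff n m).1 hm
          exact (reach_Rz (Int.odd_iff.2 g1) hzo).2 (h m g1 g2)
        · intro h m g1 g2
          exact (reach_Rz (Int.odd_iff.2 g1) hzo).1 (h m ((nb_iff n m).2 ⟨g1, g2⟩))
      · refine Pool.Agent.W38.AF.HD_congr' h5 fun n _ => and_congr_right fun _ => ?_
        constructor
        · intro h m hm hc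
          obtain ⟨g1, g2⟩ := (nb_iff n m).1 hm
          exact h m g1 g2 ((reach_Rz (Int.odd_iff.2 g1) hzo).1 hc)
        · intro h m g1 g2 hc
          exact h m ((nb_iff n m).2 ⟨g1, g2⟩) ((reach_Rz (Int.odd_iff.2 g1) hzo).2 hc)
    obtain ⟨δ1, p1, q1, r1, t1⟩ := hz (-1) (by omega)
    obtain ⟨δ2, p2, q2, r2, t2⟩ := hz (-5) (by omega)
    obtain ⟨δ3, p3, q3, r3, t3⟩ := hz (-17) (by omega)
    -- the union
    set S : Set ℤ := {x | x ∈ Pool.Agent.W38.AN.Rz (-1) ∨ x ∈ Pool.Agent.W38.AN.Rz (-5) ∨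
      x ∈ Pool.Agent.W38.AN.Rz (-17)} with hS
    have hSinv : ∀ x : ℤ, x ∈ S ↔ Pool.Agent.H499R2.ND.Ci x ∈ S := by
      intro x
      have e1 := Pool.Agent.W38.AN.Rz_Ci (hper (-1) (by omega)) x
      have e2 := Pool.Agent.W38.AN.Rz_Ci (hper (-5) (by omega)) x
      have e3 := Pool.Agent.W38.AN.Rz_Ci (hper (-17) (by omega)) x
      simp only [hS, Set.mem_ofPred_eq]
      rw [e1, e2, e3]
    obtain ⟨δ, h1, h2, h3, h4, h5⟩ := Pool.Agent.W38.AN.inv_odd (s := -1) (Or.inr rfl) hSinv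
    -- disjointness
    have hA1 : ∀ x ∈ ({-1} : Set ℤ), Pool.Agent.W38.AN.T x ∈ ({-1} : Set ℤ) := by
      intro x hx
      rw [Set.mem_singleton_iff] at hx
      subst hx
      decide
    have hA2 : ∀ x ∈ ({-5, -7, -10} : Set ℤ), Pool.Agent.W38.AN.T x ∈ ({-5, -7, -10} : Set ℤ) := by
      intro x hx
      simp only [Set.mem_insert_iff, Set.mem_singleton_iff] at hx ⊢
      rcases hx with rfl | rfl | rfl <;> decide
    have hA3 : ∀ x ∈ ({-17, -25, -37, -55, -82, -41, -61, -91, -136, -68, -34} : Set ℤ),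
        Pool.Agent.W38.AN.T x ∈
          ({-17, -25, -37, -55, -82, -41, -61, -91, -136, -68, -34} : Set ℤ) := by
      intro x hx
      simp only [Set.mem_insert_iff, Set.mem_singleton_iff] at hx ⊢
      rcases hx with rfl | rfl | rfl | rfl | rfl | rfl | rfl | rfl | rfl | rfl | rfl <;> decide
    have d12 : ∀ x ∈ ({-1} : Set ℤ), x ∉ ({-5, -7, -10} : Set ℤ) := by
      intro x hx
      simp only [Set.mem_insert_iff, Set.mem_singleton_iff] at hx ⊢
      omega
    have d13 : ∀ x ∈ ({-1} : Set ℤ),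
        x ∉ ({-17, -25, -37, -55, -82, -41, -61, -91, -136, -68, -34} : Set ℤ) := by
      intro x hx
      simp only [Set.mem_insert_iff, Set.mem_singleton_iff] at hx ⊢
      omega
    have d23 : ∀ x ∈ ({-5, -7, -10} : Set ℤ),
        x ∉ ({-17, -25, -37, -55, -82, -41, -61, -91, -136, -68, -34} : Set ℤ) := by
      intro x hx
      simp only [Set.mem_insert_iff, Set.mem_singleton_iff] at hx ⊢
      omega
    have hor : Pool.Agent.H499R2.CO.HD (fun n => (n % 2 = 1 ∧ -1 * (n : ℤ) ∈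
        Pool.Agent.W38.AN.Rz (-1)) ∨ ((n % 2 = 1 ∧ -1 * (n : ℤ) ∈ Pool.Agent.W38.AN.Rz (-5)) ∨
        (n % 2 = 1 ∧ -1 * (n : ℤ) ∈ Pool.Agent.W38.AN.Rz (-17)))) (δ1 / 2 + (δ2 / 2 + δ3 / 2)) := by
      refine Pool.Agent.W38.AN.HD_or q1 (Pool.Agent.W38.AN.HD_or q2 q3 ?_) ?_
      · rintro n ⟨_, g1⟩ ⟨_, g2⟩
        exact Pool.Agent.W38.AN.Rz_disj hA2 hA3 (by simp) (by simp) d23 g1 g2
      · rintro n ⟨_, g1⟩ (⟨_, g2⟩ | ⟨_, g2⟩)
        · exact Pool.Agent.W38.AN.Rz_disj hA1 hA2 (by simp) (by simp) d12 g1 g2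
        · exact Pool.Agent.W38.AN.Rz_disj hA1 hA3 (by simp) (by simp) d13 g1 g2
    have hsum : δ / 2 = δ1 / 2 + (δ2 / 2 + δ3 / 2) := by
      refine tendsto_nhds_unique h3 (Pool.Agent.W38.AF.HD_congr' hor fun n _ => ?_)
      simp only [hS, Set.mem_ofPred_eq]
      tauto
    have hle : δ ≤ 1 := by
      have := HD_nonneg h5
      linarith
    refine ⟨fun z => if z = -1 then δ1 else if z = -5 then δ2 else δ3, ?_, ?_, ?_⟩
    · rintro z (rfl | rfl | rfl)
      · exact ⟨p1, r1, t1⟩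
      · exact ⟨p2, r2, t2⟩
      · exact ⟨p3, r3, t3⟩
    · norm_num
      linarith
    · norm_num
      have e : δ1 + δ2 + δ3 = 1 ↔ δ = 1 := by
        constructor <;> intro h <;> linarith
      rw [e, h2]
      constructor
      · intro h N hN hodd
        rw [reach_Rz hodd (by norm_num), reach_Rz hodd (by norm_num), reach_Rz hodd (by norm_num)]
        exact h N (by omega)
      · intro h x hx
        have hneg : ∀ k : ℕ, Pool.Agent.W38.AN.T^[k] x < 0 := by
          intro k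
          induction k with
          | zero => show x < 0; omega
          | succ k ih =>
            rw [Function.iterate_succ_apply']
            generalize Pool.Agent.W38.AN.T^[k] x = y at ih ⊢
            unfold Pool.Agent.W38.AN.T
            split_ifs <;> omega
        obtain ⟨i, hi⟩ := Pool.Agent.W38.AN.exists_odd_after (x := x) (by omega)
        have ho := Int.odd_iff.2 hi
        have h6 := h _ (hneg i) ho
        rw [reach_Rz ho (by norm_num), reach_Rz ho (by norm_num), reach_Rz ho (by norm_num)] at h6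
        rcases h6 with ⟨k, hk⟩ | ⟨k, hk⟩ | ⟨k, hk⟩
        · exact Or.inl ⟨k + i, by rw [Function.iterate_add_apply, hk]⟩
        · exact Or.inr (Or.inl ⟨k + i, by rw [Function.iterate_add_apply, hk]⟩)
        · exact Or.inr (Or.inr ⟨k + i, by rw [Function.iterate_add_apply, hk]⟩)

end Pool.Agent.Results.MP_005f52_nt.NeighbourBasins
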